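import Pool.Agent.Helper66.AF.Defs
import Pool.Agent.Helper69.CX.Comb

/-! # Toy data for project CX: double of T^2 x [0,2], grid (Z/3)^2, Kuhn triangulation -/

set_option autoImplicit false

namespace Pool.CX.Toy

/-- number of vertices of one copy -/
def nU : Nat := 27

/-- number of boundary vertices -/
def nB : Nat := 18

/-- number of vertices of the double -/
def nW : Nat := 36

/-- signed tetrahedra of one copy, chunk 0 -/
def TU_0 : List (Bool × Nat × Nat × Nat × Nat) := [(true, 0, 3, 4, 22), (false, 0, 3, 21, 22), (false, 0, 1, 4, 22), (true, 0, 1, 19, 22), (true, 0, 18, 21, 22), (false, 0, 18, 19, 22), (true, 1, 4, 5, 23), (false, 1, 4, 22, 23), (false, 1, 2, 5, 23), (true, 1, 2, 20, 23), (true, 1, 19, 22, 23), (false, 1, 19, 20, 23), (false, 2, 3, 5, 21), (true, 2, 5, 21, 23), (true, 0, 2, 3, 21), (false, 0, 2, 18, 21), (false, 2, 20, 21, 23), (true, 2, 18, 20,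 21), (true, 3, 6, 7, 25), (false, 3, 6, 24, 25), (false, 3, 4, 7, 25), (true, 3, 4, 22, 25), (true, 3, 21, 24, 25), (false, 3, 21, 22, 25), (true, 4, 7, 8, 26), (false, 4, 7, 25, 26), (false, 4, 5, 8, 26), (true, 4, 5, 23, 26), (true, 4, 22, 25, 26), (false, 4, 22, 23, 26), (false, 5, 6, 8, 24), (true, 5, 8, 24, 26), (true, 3, 5, 6, 24), (false, 3, 5, 21, 24), (false, 5, 23, 24, 26), (true, 5, 21, 23, 24), (true, 0, 1, 6, 19), (true, 0, 6, 18, 19), (false, 1, 6, 7, 19), (false, 6, 7, 19, 25), (true, 6, 18, 19, 24), (false, 6, 19, 24, 25), (true, 1, 2, 7, 20), (true, 1, 7, 19, 20), (false, 2, 7, 8, 20), (false, 7, 8, 20, 26), (true, 7, 19, 20, 25), (false, 7, 20, 25, 26), (false, 0, 2, 8, 18), (false, 2, 8, 18, 20), (true, 0, 6, 8, 18), (true, 6, 8, 18, 24), (false, 8, 18, 20, 26), (true, 8, 18, 24, 26), (false, 13, 18, 21, 22), (false, 12, 13, 18, 21), (true, 13, 18, 19,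 22), (true, 10, 13, 18, 19), (false, 9, 12, 13, 18), (true, 9, 10, 13, 18), (false, 14, 19, 22, 23), (false, 13, 14, 19, 22), (true, 14, 19, 20, 23), (true, 11, 14, 19, 20), (false, 10, 13, 14, 19), (true, 10, 11, 14, 19), (true, 12, 20, 21, 23), (true, 12, 14, 20, 23), (false, 12, 18, 20, 21), (false, 9, 12, 18, 20), (true, 11, 12, 14, 20), (false, 9, 11, 12, 20), (false, 16, 21, 24, 25), (false, 15, 16, 21, 24), (true, 16, 21, 22, 25), (true, 13, 16, 21, 22), (false, 12, 15, 16, 21), (true, 12, 13, 16, 21), (false, 17, 22, 25, 26), (false, 16, 17, 22, 25), (true, 17, 22, 23, 26), (true, 14, 17, 22, 23), (false, 13, 16, 17, 22), (true, 13, 14, 17, 22), (true, 15, 23, 24, 26), (true, 15, 17, 23, 26), (false, 15, 21, 23, 24), (false, 12, 15, 21, 23), (true, 14, 15, 17, 23), (false, 12, 14, 15, 23), (false, 10, 18, 19, 24), (true, 9, 10, 18, 24), (true, 10, 19, 24, 25), (false,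 10, 16, 24, 25), (false, 9, 10, 15, 24), (true, 10, 15, 16, 24), (false, 11, 19, 20, 25), (true, 10, 11, 19, 25), (true, 11, 20, 25, 26), (false, 11, 17, 25, 26)]

/-- signed tetrahedra of one copy, chunk 1 -/
def TU_1 : List (Bool × Nat × Nat × Nat × Nat) := [(false, 10, 11, 16, 25), (true, 11, 16, 17, 25), (true, 9, 18, 20, 26), (false, 9, 11, 20, 26), (false, 9, 18, 24, 26), (true, 9, 15, 24, 26), (true, 9, 11, 17, 26), (false, 9, 15, 17, 26)]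

/-- signed tetrahedra of one copy -/
def TU : List (Bool × Nat × Nat × Nat × Nat) := TU_0 ++ TU_1

/-- labels (u, v, letter), chunk 0 -/
def lab_0 : List (Nat × Nat × Nat) := [(0, 0, 0), (0, 1, 0), (0, 2, 2), (0, 3, 0), (0, 4, 0), (0, 6, 3), (0, 8, 5), (0, 18, 0), (0, 19, 0), (0, 21, 0), (0, 22, 0), (1, 0, 0), (1, 1, 0), (1, 2, 0), (1, 4, 0), (1, 5, 0), (1, 6, 3), (1, 7, 3), (1, 19, 0), (1, 20, 0), (1, 22, 0), (1, 23, 0), (2, 0, 1), (2, 1, 0), (2, 2, 0), (2, 3, 1), (2, 5, 0), (2, 7, 3), (2, 8, 3), (2, 18, 1), (2, 20, 0), (2, 21, 1), (2, 23, 0), (3, 0, 0), (3, 2, 2), (3, 3, 0), (3, 4, 0), (3, 5, 2), (3, 6, 0), (3, 7, 0), (3, 21, 0), (3, 22, 0), (3, 24, 0), (3, 25, 0), (4, 0, 0), (4, 1, 0), (4, 3, 0), (4, 4, 0), (4, 5, 0), (4, 7, 0), (4, 8, 0), (4, 22, 0), (4, 23, 0), (4, 25, 0), (4, 26, 0), (5, 1, 0), (5, 2, 0), (5, 3, 1), (5, 4, 0), (5, 5, 0), (5, 6, 1), (5, 8, 0), (5,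 21, 1), (5, 23, 0), (5, 24, 1), (5, 26, 0), (6, 0, 4), (6, 1, 4), (6, 3, 0), (6, 5, 2), (6, 6, 0), (6, 7, 0), (6, 8, 2), (6, 18, 4), (6, 19, 4), (6, 24, 0), (6, 25, 0), (7, 1, 4), (7, 2, 4), (7, 3, 0), (7, 4, 0), (7, 6, 0), (7, 7, 0), (7, 8, 0), (7, 19, 4), (7, 20, 4), (7, 25, 0), (7, 26, 0), (8, 0, 6), (8, 2, 4), (8, 4, 0), (8, 5, 0), (8, 6, 1), (8, 7, 0), (8, 8, 0), (8, 18, 6), (8, 20, 4), (8, 24, 1), (8, 26, 0), (9, 9, 0), (9, 10, 0), (9, 11, 2), (9, 12, 0), (9, 13, 0), (9, 15, 3), (9, 17, 5), (9, 18, 7), (9, 20, 9), (9, 24, 11), (9, 26, 13), (10, 9, 0), (10, 10, 0), (10, 11, 0), (10, 13, 0), (10, 14, 0), (10, 15, 3), (10, 16, 3), (10, 18, 7), (10, 19, 7), (10, 24, 11), (10, 25, 11), (11, 9, 1), (11, 10, 0), (11, 11, 0), (11, 12, 1), (11, 14, 0), (11, 16, 3), (11, 17, 3), (11, 19, 7), (11, 20, 7), (11, 25, 11), (11, 26, 11), (12, 9, 0), (12, 11, 2), (12, 12, 0), (12,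 13, 0), (12, 14, 2), (12, 15, 0), (12, 16, 0), (12, 18, 7), (12, 20, 9), (12, 21, 7), (12, 23, 9), (13, 9, 0), (13, 10, 0), (13, 12, 0), (13, 13, 0), (13, 14, 0), (13, 16, 0), (13, 17, 0), (13, 18, 7), (13, 19, 7), (13, 21, 7), (13, 22, 7), (14, 10, 0), (14, 11, 0), (14, 12, 1), (14, 13, 0), (14, 14, 0), (14, 15, 1), (14, 17, 0), (14, 19, 7), (14, 20, 7), (14, 22, 7), (14, 23, 7), (15, 9, 4), (15, 10, 4), (15, 12, 0), (15, 14, 2), (15, 15, 0), (15, 16, 0), (15, 17, 2), (15, 21, 7), (15, 23, 9), (15, 24, 7), (15, 26, 9), (16, 10, 4), (16, 11, 4), (16, 12, 0), (16, 13, 0), (16, 15, 0), (16, 16, 0), (16, 17, 0), (16, 21, 7), (16, 22, 7), (16, 24, 7), (16, 25, 7), (17, 9, 6), (17, 11, 4), (17, 13, 0), (17, 14, 0), (17, 15, 1), (17, 16, 0), (17, 17, 0), (17, 22, 7), (17, 23, 7), (17, 25, 7), (17, 26, 7), (18, 0, 0), (18, 2, 2)]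

/-- labels (u, v, letter), chunk 1 -/
def lab_1 : List (Nat × Nat × Nat) := [(18, 6, 3), (18, 8, 5), (18, 9, 8), (18, 10, 8), (18, 12, 8), (18, 13, 8), (18, 18, 0), (18, 19, 0), (18, 20, 2), (18, 21, 0), (18, 22, 0), (18, 24, 3), (18, 26, 5), (19, 0, 0), (19, 1, 0), (19, 6, 3), (19, 7, 3), (19, 10, 8), (19, 11, 8), (19, 13, 8), (19, 14, 8), (19, 18, 0), (19, 19, 0), (19, 20, 0), (19, 22, 0), (19, 23, 0), (19, 24, 3), (19, 25, 3), (20, 1, 0), (20, 2, 0), (20, 7, 3), (20, 8, 3), (20, 9, 10), (20, 11, 8), (20, 12, 10), (20, 14, 8), (20, 18, 1), (20, 19, 0), (20, 20, 0), (20, 21, 1), (20, 23, 0), (20, 25, 3), (20, 26, 3), (21, 0, 0), (21, 2, 2), (21, 3, 0), (21, 5, 2), (21, 12, 8), (21, 13, 8), (21, 15, 8), (21, 16, 8), (21, 18, 0), (21, 20, 2), (21, 21, 0), (21, 22, 0), (21, 23, 2), (21, 24, 0), (21, 25, 0), (22, 0, 0), (22, 1, 0), (22, 3, 0), (22, 4, 0), (22, 13, 8), (22,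 14, 8), (22, 16, 8), (22, 17, 8), (22, 18, 0), (22, 19, 0), (22, 21, 0), (22, 22, 0), (22, 23, 0), (22, 25, 0), (22, 26, 0), (23, 1, 0), (23, 2, 0), (23, 4, 0), (23, 5, 0), (23, 12, 10), (23, 14, 8), (23, 15, 10), (23, 17, 8), (23, 19, 0), (23, 20, 0), (23, 21, 1), (23, 22, 0), (23, 23, 0), (23, 24, 1), (23, 26, 0), (24, 3, 0), (24, 5, 2), (24, 6, 0), (24, 8, 2), (24, 9, 12), (24, 10, 12), (24, 15, 8), (24, 16, 8), (24, 18, 4), (24, 19, 4), (24, 21, 0), (24, 23, 2), (24, 24, 0), (24, 25, 0), (24, 26, 2), (25, 3, 0), (25, 4, 0), (25, 6, 0), (25, 7, 0), (25, 10, 12), (25, 11, 12), (25, 16, 8), (25, 17, 8), (25, 19, 4), (25, 20, 4), (25, 21, 0), (25, 22, 0), (25, 24, 0), (25, 25, 0), (25, 26, 0), (26, 4, 0), (26, 5, 0), (26, 7, 0), (26, 8, 0), (26, 9, 14), (26, 11, 12), (26, 15, 10), (26, 17, 8), (26, 18, 6), (26, 20, 4), (26, 22, 0), (26, 23, 0), (26, 24, 1), (26, 25, 0),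 (26, 26, 0)]

/-- labels (u, v, letter) -/
def lab : List (Nat × Nat × Nat) := lab_0 ++ lab_1

/-- relations (i, j, l): A i * A j = A l, chunk 0 -/
def rels_0 : List (Nat × Nat × Nat) := [(0, 0, 0), (0, 1, 1), (0, 2, 2), (0, 3, 3), (0, 4, 4), (0, 5, 5), (0, 6, 6), (0, 7, 7), (0, 8, 8), (0, 9, 9), (0, 10, 10), (0, 11, 11), (0, 12, 12), (0, 13, 13), (0, 14, 14), (1, 0, 1), (1, 2, 0), (1, 4, 6), (1, 5, 3), (1, 8, 10), (1, 9, 7), (1, 12, 14), (1, 13, 11), (2, 0, 2), (2, 1, 0), (2, 3, 5), (2, 6, 4), (2, 7, 9), (2, 10, 8), (2, 11, 13), (2, 14, 12), (3, 0, 3), (3, 2, 5), (3, 4, 0), (3, 6, 1), (3, 7, 11), (3, 9, 13), (3, 12, 8), (3, 14, 10), (4, 0, 4), (4, 1, 6), (4, 3, 0), (4, 5, 2), (4, 8, 12), (4, 10, 14), (4, 11, 7), (4, 13, 9), (5, 0, 5), (5, 1, 3), (5, 4, 2), (5, 6, 0), (5, 7, 13), (5, 14, 8), (6, 0, 6), (6, 2, 4), (6, 3, 1), (6, 5, 0), (6, 8, 14), (6, 13, 7), (7, 0, 7), (7,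 2, 9), (7, 3, 11), (7, 5, 13), (7, 8, 0), (7, 10, 1), (7, 12, 4), (7, 14, 6), (8, 0, 8), (8, 1, 10), (8, 4, 12), (8, 6, 14), (8, 7, 0), (8, 9, 2), (8, 11, 3), (8, 13, 5), (9, 0, 9), (9, 1, 7), (9, 3, 13), (9, 8, 2), (9, 10, 0), (9, 14, 4), (10, 0, 10), (10, 2, 8), (10, 4, 14), (10, 7, 1), (10, 9, 0), (10, 13, 3), (11, 0, 11), (11, 2, 13), (11, 4, 7), (11, 8, 3), (11, 12, 0), (11, 14, 1), (12, 0, 12), (12, 1, 14), (12, 3, 8), (12, 7, 4), (12, 11, 0), (12, 13, 2), (13, 0, 13), (13, 1, 11), (13, 4, 9), (13, 6, 7), (13, 8, 5), (13, 10, 3), (13, 12, 2), (13, 14, 0), (14, 0, 14), (14, 2, 12), (14, 3, 10), (14, 5, 8), (14, 7, 6), (14, 9, 4), (14, 11, 1), (14, 13, 0)]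

/-- relations (i, j, l): A i * A j = A l -/
def rels : List (Nat × Nat × Nat) := rels_0

/-- boundary letters -/
def bds : List Nat := [0, 1, 2, 3, 4, 5, 6]

/-- the letters: translations by (3 a, 3 b, c) -/
def letters : List (Int × Int × Int) := [(0, 0, 0), (0, 3, 0), (0, -3, 0), (-3, 0, 0), (3, 0, 0), (-3, -3, 0), (3, 3, 0), (0, 0, -2), (0, 0, 2), (0, -3, -2), (0, 3, 2), (-3, 0, -2), (3, 0, 2), (-3, -3, -2), (3, 3, 2)]

/-- positions in the own chart, chunk 0 -/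
def P_0 : List (Int × Int × Int) := [(0, 0, 0), (0, 1, 0), (0, 2, 0), (1, 0, 0), (1, 1, 0), (1, 2, 0), (2, 0, 0), (2, 1, 0), (2, 2, 0), (0, 0, 0), (0, 1, 0), (0, 2, 0), (1, 0, 0), (1, 1, 0), (1, 2, 0), (2, 0, 0), (2, 1, 0), (2, 2, 0), (0, 0, 1), (0, 1, 1), (0, 2, 1), (1, 0, 1), (1, 1, 1), (1, 2, 1), (2, 0, 1), (2, 1, 1), (2, 2, 1)]

/-- positions in the own chart -/
def P : List (Int × Int × Int) := P_0

/-- test vectors of the vertices of the double, chunk 0 -/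
def Y_0 : List (Int × Int × Int) := [(31, 24, 13), (24, -7, 13), (24, -7, 13), (-7, 24, 11), (-11, -24, 7), (-11, -24, 7), (-7, 24, 11), (-11, -24, 7), (-11, -24, 7), (20, 13, -11), (7, -11, -24), (7, -11, -24), (-13, 7, -24), (-7, -20, -31), (-7, -20, -31), (-13, 7, -24), (-7, -20, -31), (-7, -20, -31), (24, 11, -7), (7, -11, -24), (7, -11, -24), (-13, 7, -24), (-13, -24, -31), (-13, -24, -31), (-13, 7, -24), (-13, -24, -31), (-13, -24, -31), (24, 13, 7), (7, -13, 24), (7, -13, 24), (-11, 7, 24), (-11, -24, 31), (-11, -24, 31), (-11, 7, 24), (-11, -24, 31), (-11, -24, 31)]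

/-- test vectors of the vertices of the double -/
def Y : List (Int × Int × Int) := Y_0

end Pool.CX.Toy
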